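import Pool.Agent.W751.CV.Stm
import Pool.Agent.W751.CD.Fib

/-!
# Small values at a point of modulus larger than one are unlikely
-/

set_option autoImplicit false

open Polynomial Filter Topology MeasureTheory

namespace Pool.Agent.W460.CV

open Pool.Agent.W751.CD Pool.Agent.W751.CV

lemma near {N : ℕ} (z : Fin N → ℂ) (w u : ℂ) (δ s : ℝ) (hδ : 0 < δ) (hu : ‖u - w‖ ≤ δ)
    (hs : ∀ x : ℂ, ‖x‖ ≤ ‖w‖ + 2 * δ → ‖(P z).eval x‖ ≤ s) :
    ‖(P z).eval u - (P z).eval w‖ ≤ s / δ * ‖u - w‖ := by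
  have hd : ∀ x ∈ Metric.closedBall w δ, ‖deriv (fun y : ℂ => (P z).eval y) x‖ ≤ s / δ := by
    intro x hx
    refine Complex.norm_deriv_le_of_forall_mem_sphere_norm_le hδ
      (P z).differentiable.diffContOnCl ?_
    intro y hy
    apply hs
    have h1 : ‖y - x‖ = δ := by rw [← dist_eq_norm]; exact hy
    have h2 : ‖x - w‖ ≤ δ := by rw [← dist_eq_norm]; exact hx
    have h3 : y = (y - x) + (x - w) + w := by ring
    rw [h3]
    have h4 := norm_add_le ((y - x) + (x - w)) w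
    have h5 := norm_add_le (y - x) (x - w)
    linarith
  have hu' : u ∈ Metric.closedBall w δ := by
    rw [Metric.mem_closedBall, dist_eq_norm]
    exact hu
  exact Convex.norm_image_sub_le_of_norm_deriv_le (𝕜 := ℂ) (f := fun y : ℂ => (P z).eval y)
    (fun x _ => (P z).differentiableAt) hd (convex_closedBall w δ)
    (Metric.mem_closedBall_self hδ.le) hu'

lemma meas_eval {N : ℕ} (w : ℂ) :
    Measurable (fun z : Fin N → ℂ => ENNReal.ofReal ((‖(P z).eval w‖ ^ 2)⁻¹)) := by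
  apply ENNReal.measurable_ofReal.comp
  apply Measurable.inv
  apply Measurable.pow_const
  apply Measurable.norm
  have h : (fun z : Fin N → ℂ => (P z).eval w) = fun z => ∏ i, (w - z i) := by
    funext z
    exact eval_P z w
  rw [h]
  exact Finset.measurable_prod _ fun i _ => measurable_const.sub (measurable_pi_apply i)

lemma ZN_nonneg {ρ : ℝ} (hρ : 0 < ρ) (N : ℕ) : 0 ≤ ZN ρ N := by
  unfold ZN hk
  have := Real.pi_pos
  positivity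

/-- Markov's inequality for the negative moment -/
lemma markov (hNEG : NEGOUTc) {ρ : ℝ} {N : ℕ} {w : ℂ} (hρ : 0 < ρ) (hN : 1 ≤ N) (hw : ρ < ‖w‖)
    {β : ℝ} (hβ : 0 < β) :
    mu ρ N {z | ENNReal.ofReal ((((β * ‖w‖) ^ N) ^ 2)⁻¹) ≤
      ENNReal.ofReal ((‖(P z).eval w‖ ^ 2)⁻¹)} ≤
      ENNReal.ofReal (‖w‖ ^ 2 / (‖w‖ - ρ) ^ 2 * (N * β ^ (2 * N)) * ZN ρ N) := by
  have hW : 0 < ‖w‖ := hρ.trans hw
  have hpos : 0 < (((β * ‖w‖) ^ N) ^ 2)⁻¹ := by positivity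
  have h1 := meas_ge_le_lintegral_div (μ := mu ρ N) (meas_eval (N := N) w).aemeasurable
    (ε := ENNReal.ofReal ((((β * ‖w‖) ^ N) ^ 2)⁻¹)) (by
      rw [Ne, ENNReal.ofReal_eq_zero, not_le]
      exact hpos) ENNReal.ofReal_ne_top
  refine h1.trans ?_
  refine (ENNReal.div_le_div_right (hNEG ρ N w hρ hN hw) _).trans ?_
  rw [← ENNReal.ofReal_div_of_pos hpos]
  apply ENNReal.ofReal_le_ofReal
  apply le_of_eq
  obtain ⟨n, rfl⟩ : ∃ n, N = n + 1 := ⟨N - 1, by omega⟩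
  have h2 : 0 < ‖w‖ - ρ := by linarith
  simp only [Nat.add_sub_cancel]
  field_simp
  ring

lemma exists_consts {W ρ₁ R : ℝ} (hρ₁0 : 0 < ρ₁) (hρ₁ : ρ₁ < 1) (hW : 1 < W) (hR : 1 ≤ R) :
    ∃ β δ γ : ℝ, 0 < β ∧ β < 1 ∧ 0 < δ ∧ 1 < γ ∧ ∃ N₀ : ℕ, ∀ N : ℕ, N₀ ≤ N → ρ₁ ^ N ≤ δ ∧
      R + ((W + 2 * δ) * γ) ^ N / δ * ρ₁ ^ N < (β * W) ^ N := by
  have hW0 : 0 < W := by linarith
  have h1 : W⁻¹ < 1 := inv_lt_one_of_one_lt₀ hW
  obtain ⟨β, hβ1, hβ2⟩ := exists_between (max_lt h1 hρ₁)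
  have hβW : W⁻¹ < β := (le_max_left _ _).trans_lt hβ1
  have hβρ : ρ₁ < β := (le_max_right _ _).trans_lt hβ1
  have hβ0 : 0 < β := hρ₁0.trans hβρ
  have hbW : 1 < β * W := by
    rw [inv_lt_iff_one_lt_mul₀ hW0] at hβW
    linarith
  set t : ℝ := β / ρ₁ with ht
  have ht1 : 1 < t := by rw [ht, lt_div_iff₀ hρ₁0]; linarith
  obtain ⟨γ, hγ1, hγt⟩ := exists_between ht1
  have hγ0 : 0 < γ := by linarith
  have htγ : 1 < t / γ := by rw [lt_div_iff₀ hγ0]; linarith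
  set δ : ℝ := W * (t / γ - 1) / 4 with hδ
  have hδ0 : 0 < δ := by
    rw [hδ]
    have : 0 < t / γ - 1 := by linarith
    positivity
  -- τ
  have hτ : (W + 2 * δ) * γ * ρ₁ < β * W := by
    have e : W + 2 * δ = W * ((1 + t / γ) / 2) := by rw [hδ]; ring
    have e2 : (1 + t / γ) / 2 < t / γ := by linarith
    have e3 : W * ((1 + t / γ) / 2) < W * (t / γ) := mul_lt_mul_of_pos_left e2 hW0
    calc (W + 2 * δ) * γ * ρ₁ < W * (t / γ) * γ * ρ₁ := by rw [e]; gcongr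
      _ = β * W := by rw [ht]; field_simp
  set τ : ℝ := (W + 2 * δ) * γ * ρ₁ / (β * W) with hτd
  have hbW0 : 0 < β * W := by linarith
  have hτ1 : τ < 1 := by rw [hτd, div_lt_one hbW0]; exact hτ
  have hτ0 : 0 ≤ τ := by rw [hτd]; positivity
  have l1 : ∀ᶠ N : ℕ in atTop, ρ₁ ^ N < δ :=
    (tendsto_pow_atTop_nhds_zero_of_lt_one hρ₁0.le hρ₁).eventually (gt_mem_nhds hδ0)
  have l2 : ∀ᶠ N : ℕ in atTop, τ ^ N < δ / 2 :=
    (tendsto_pow_atTop_nhds_zero_of_lt_one hτ0 hτ1).eventually (gt_mem_nhds (by positivity))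
  have l3 : ∀ᶠ N : ℕ in atTop, 2 * R < (β * W) ^ N :=
    (tendsto_pow_atTop_atTop_of_one_lt hbW).eventually (eventually_gt_atTop _)
  obtain ⟨N₀, hN₀⟩ := eventually_atTop.1 (l1.and (l2.and l3))
  refine ⟨β, δ, γ, hβ0, hβ2, hδ0, hγ1, N₀, fun N hN => ?_⟩
  obtain ⟨m1, m2, m3⟩ := hN₀ N hN
  refine ⟨m1.le, ?_⟩
  have e1 : ((W + 2 * δ) * γ) ^ N / δ * ρ₁ ^ N = τ ^ N / δ * (β * W) ^ N := by
    rw [hτd, div_pow, mul_pow _ ρ₁]
    field_simp
  rw [e1]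
  have e2 : τ ^ N / δ < 1 / 2 := by
    rw [div_lt_iff₀ hδ0]
    linarith
  have e3 : 0 < (β * W) ^ N := by positivity
  nlinarith

theorem cc : S_CC := by
  intro hZN hCB hNEG ρ ρ₁ R w hρ hρρ₁ hρ₁ hw hR
  have hρ₁0 : 0 < ρ₁ := hρ.trans hρρ₁
  obtain ⟨β, δ, γ, hβ0, hβ1, hδ0, hγ1, N₀, hN₀⟩ := exists_consts hρ₁0 hρ₁ hw hR
  have hγ0 : 0 < γ := by linarith
  set θ : ℝ := max β γ⁻¹ with hθ
  have hθ0 : 0 < θ := lt_of_lt_of_le hβ0 (le_max_left _ _)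
  have hθ1 : θ < 1 := max_lt hβ1 (inv_lt_one_of_one_lt₀ hγ1)
  obtain ⟨B, hB⟩ : ∃ B : ℝ, ∀ n : ℕ, (n : ℝ) ^ 2 * θ ^ n ≤ B := by
    obtain ⟨B, hB⟩ := (tendsto_pow_const_mul_const_pow_of_lt_one 2 hθ0.le hθ1).bddAbove_range
    exact ⟨B, fun n => hB ⟨n, rfl⟩⟩
  have hB0 : 0 ≤ B := by
    have := hB 0
    simpa using this
  have hwρ : 0 < ‖w‖ - ρ := by linarith
  set c₁ : ℝ := ‖w‖ ^ 2 / (‖w‖ - ρ) ^ 2 with hc₁
  have hc₁0 : 0 ≤ c₁ := by positivity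
  refine ⟨c₁ * B + 4 * B + (θ ^ N₀)⁻¹, θ, by positivity, hθ0, hθ1, ?_⟩
  intro N hN
  have hN1 : (1 : ℝ) ≤ N := by exact_mod_cast (by omega : 1 ≤ N)
  have hZ := ZN_nonneg hρ N
  by_cases hNN : N₀ ≤ N
  · obtain ⟨n1, n2⟩ := hN₀ N hNN
    set s : ℝ := ((‖w‖ + 2 * δ) * γ) ^ N with hs
    have hs0 : 0 < s := by positivity
    have hsub : {z : Fin N → ℂ | ∃ u : ℂ, ‖u - w‖ ≤ ρ₁ ^ N ∧ ‖(P z).eval u‖ ≤ R} ⊆
        ({z | ¬ ∀ i, ‖z i‖ ≤ ρ} ∪ {z | ENNReal.ofReal ((((β * ‖w‖) ^ N) ^ 2)⁻¹) ≤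
          ENNReal.ofReal ((‖(P z).eval w‖ ^ 2)⁻¹)}) ∪
        {z | ∃ x : ℂ, ‖x‖ ≤ ‖w‖ + 2 * δ ∧ s < ‖(P z).eval x‖} := by
      rintro z ⟨u, hu1, hu2⟩
      by_contra hcon
      simp only [Set.mem_union, Set.mem_ofPred_eq, not_or, not_not] at hcon
      obtain ⟨⟨k1, k2⟩, k3⟩ := hcon
      have k4 : ∀ x : ℂ, ‖x‖ ≤ ‖w‖ + 2 * δ → ‖(P z).eval x‖ ≤ s := by
        intro x hx
        by_contra hx2
        exact k3 ⟨x, hx, not_le.1 hx2⟩
      have hPw : 0 < ‖(P z).eval w‖ := by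
        rw [norm_pos_iff, eval_P, Finset.prod_ne_zero_iff]
        intro i _ h0
        have h1 := k1 i
        rw [sub_eq_zero] at h0
        rw [← h0] at h1
        linarith
      have k5 : (β * ‖w‖) ^ N ≤ ‖(P z).eval w‖ := by
        by_contra hlt
        rw [not_le] at hlt
        apply k2
        apply ENNReal.ofReal_le_ofReal
        apply inv_anti₀ (by positivity)
        gcongr
      have k6 := near z w u δ s hδ0 (hu1.trans n1) k4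
      have k7 : s / δ * ‖u - w‖ ≤ s / δ * ρ₁ ^ N := by gcongr
      have k8 : ‖(P z).eval w‖ ≤ ‖(P z).eval u - (P z).eval w‖ + ‖(P z).eval u‖ := by
        have := norm_sub_le ((P z).eval u) ((P z).eval u - (P z).eval w)
        rw [sub_sub_cancel] at this
        linarith
      linarith
    have b1 := hZN ρ N hρ
    have b2 := markov hNEG hρ (by omega : 1 ≤ N) (by linarith : ρ < ‖w‖) hβ0
    have b3 := hCB ρ (‖w‖ + 2 * δ) s N hρ (by linarith) hs0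
    have hθβ : β ^ (2 * N) ≤ θ ^ (2 * N) := by
      gcongr
      exact le_max_left _ _
    have hθγ : (γ⁻¹) ^ (2 * N) ≤ θ ^ (2 * N) := by
      gcongr
      exact le_max_right _ _
    have d0 : θ ^ (2 * N) = θ ^ N * θ ^ N := by rw [two_mul, pow_add]
    have hθN : 0 < θ ^ N := by positivity
    have d1 : (N : ℝ) * β ^ (2 * N) ≤ B * θ ^ N := by
      calc (N : ℝ) * β ^ (2 * N) ≤ (N : ℝ) ^ 2 * θ ^ (2 * N) := by
            have : (N : ℝ) ≤ (N : ℝ) ^ 2 := by nlinarith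
            gcongr
        _ = ((N : ℝ) ^ 2 * θ ^ N) * θ ^ N := by rw [d0]; ring
        _ ≤ B * θ ^ N := by
            have := hB N
            gcongr
    have d2 : ((N : ℝ) + 1) ^ 2 * (‖w‖ + 2 * δ) ^ (2 * N) / s ^ 2 ≤ 4 * B * θ ^ N := by
      have e1 : ((N : ℝ) + 1) ^ 2 * (‖w‖ + 2 * δ) ^ (2 * N) / s ^ 2 =
          ((N : ℝ) + 1) ^ 2 * (γ⁻¹) ^ (2 * N) := by
        rw [hs, ← pow_mul, mul_comm N 2, mul_pow, inv_pow]
        field_simp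
      rw [e1]
      calc ((N : ℝ) + 1) ^ 2 * (γ⁻¹) ^ (2 * N) ≤ (4 * (N : ℝ) ^ 2) * θ ^ (2 * N) := by
            have : ((N : ℝ) + 1) ^ 2 ≤ 4 * (N : ℝ) ^ 2 := by nlinarith
            gcongr
        _ = 4 * ((N : ℝ) ^ 2 * θ ^ N) * θ ^ N := by rw [d0]; ring
        _ ≤ 4 * B * θ ^ N := by
            have := hB N
            gcongr
    calc mu ρ N {z | ∃ u : ℂ, ‖u - w‖ ≤ ρ₁ ^ N ∧ ‖(P z).eval u‖ ≤ R}
        ≤ _ := measure_mono hsub
      _ ≤ _ := measure_union_le _ _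
      _ ≤ (mu ρ N {z | ¬ ∀ i, ‖z i‖ ≤ ρ} + _) + _ := by
          gcongr
          exact measure_union_le _ _
      _ ≤ (0 + ENNReal.ofReal (c₁ * (N * β ^ (2 * N)) * ZN ρ N)) +
          ENNReal.ofReal ((N + 1) ^ 2 * (‖w‖ + 2 * δ) ^ (2 * N) / s ^ 2 * ZN ρ N) := by
          gcongr
          exact b1.2.le
      _ = ENNReal.ofReal (c₁ * (N * β ^ (2 * N)) * ZN ρ N +
          (N + 1) ^ 2 * (‖w‖ + 2 * δ) ^ (2 * N) / s ^ 2 * ZN ρ N) := by
          rw [zero_add, ← ENNReal.ofReal_add]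
          · positivity
          · positivity
      _ ≤ _ := by
          apply ENNReal.ofReal_le_ofReal
          have f1 : c₁ * (N * β ^ (2 * N)) * ZN ρ N ≤ c₁ * (B * θ ^ N) * ZN ρ N := by gcongr
          have f2 : ((N : ℝ) + 1) ^ 2 * (‖w‖ + 2 * δ) ^ (2 * N) / s ^ 2 * ZN ρ N ≤
              4 * B * θ ^ N * ZN ρ N := by gcongr
          have f3 : 0 ≤ (θ ^ N₀)⁻¹ * θ ^ N * ZN ρ N := by positivity
          nlinarith
  · rw [not_le] at hNN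
    calc mu ρ N {z | ∃ u : ℂ, ‖u - w‖ ≤ ρ₁ ^ N ∧ ‖(P z).eval u‖ ≤ R}
        ≤ mu ρ N Set.univ := measure_mono (Set.subset_univ _)
      _ = ENNReal.ofReal (ZN ρ N) := (hZN ρ N hρ).1
      _ ≤ _ := by
          apply ENNReal.ofReal_le_ofReal
          have g1 : θ ^ N₀ ≤ θ ^ N := pow_le_pow_of_le_one hθ0.le hθ1.le hNN.le
          have g2 : 1 ≤ (θ ^ N₀)⁻¹ * θ ^ N := by
            rw [inv_mul_eq_div, one_le_div (by positivity)]
            exact g1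
          have g3 : 0 ≤ (c₁ * B + 4 * B) * θ ^ N := by positivity
          have g4 : 1 ≤ (c₁ * B + 4 * B + (θ ^ N₀)⁻¹) * θ ^ N := by
            rw [add_mul]
            linarith
          exact le_mul_of_one_le_left hZ g4

end Pool.Agent.W460.CV
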